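import Pool.Agent.PSS.StmtsG
import Pool.Agent.Helper11_PFD.LEQ
import Pool.Agent.Helper35_K9.CHV
import Pool.Agent.Helper85_AT3.LSB

/-!
Squad PSS, row LEN (helper11): the number of the modular characters of a block and of its Brauer
correspondent.
-/

open scoped BigOperators

noncomputable section

namespace Pool.Agent.PSS.H11

open Pool.Agent.Helper51_AWC Pool.Agent.Helper79_WRA Pool.Agent.PP Pool.Agent.PP.KF
open Pool.Agent.PP.K9 Pool.Agent.PP.K9.H97 Pool.Agent.PP.H75 Pool.Agent.PP.T3 Pool.Agent.PP.T2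
open Pool.Agent.PP.TB (Zd Star iz cz)
open Pool.Agent.PFD (Ei KsmStmt LntStmt LkeStmt)

attribute [local instance] Ideal.Quotient.field

theorem cen_le_Cu {G : Type} [Group G] {V : Subgroup G} {v : G} (hv : v ∈ V) :
    Subgroup.centralizer (V : Set G) ≤ Cu v := fun g hg =>
  Subgroup.mem_centralizer_singleton_iff.2 (Subgroup.mem_centralizer_iff.1 hg v hv).symm

theorem Cu_top {G : Type} [Group G] {v : G} (hv : v ∈ Subgroup.center G) : Cu v = ⊤ := by
  rw [eq_top_iff]
  intro g _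
  exact Subgroup.mem_centralizer_singleton_iff.2 (Subgroup.mem_center_iff.1 hv g)

theorem Cu_lt {G : Type} [Group G] [Finite G] {v : G} (hv : v ∉ Subgroup.center G) :
    Nat.card (Cu v) < Nat.card G := by
  refine lt_of_le_of_ne (Subgroup.card_le_card_group _) (fun h => hv ?_)
  rw [Subgroup.mem_center_iff]
  intro g
  have h1 : g ∈ Cu v := by
    rw [(Subgroup.card_eq_iff_eq_top _).1 h]
    exact Subgroup.mem_top g
  exact Subgroup.mem_centralizer_singleton_iff.1 h1

theorem len (qrx : QrxStmt) (qrq : QrqStmt) (twn : TwnStmt) (exc : ExcStmt) (frt : FrtStmt)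
    (ltx : LtxStmt) (izx : IzxStmt) (qln : QlnStmt) (ksm : KsmStmt) (lnt : LntStmt)
    (lke : LkeStmt) (lsb : T3.LsbStmt) (sta : TW.StaStmt) (inx : K9.InxStmt)
    (lbr : K9.LbrStmt) : LenStmt := by
  intro K hK sto ℓ hℓ M _ hM
  have hF : GoodF ℓ (FF M) := H50.fld ℓ Fact.out M hM
  have hA : Adm ℓ K := hK ℓ hℓ.out
  suffices hmain : ∀ n : ℕ, ∀ (G : Type) [Group G] [Finite G], Nat.card G = n →
      ∀ (e : G → FF M) (V : Subgroup G) (γ : G → FF M), Ld ℓ e V γ →
      (V = ⊥ ∨ ∃ W : Subgroup V, K ℓ V (Ei V γ) W) →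
      ln e = ln (fun t : Subgroup.normalizer (V : Set G) => br V e t) by
    intro G _ _ e V γ h1 h2
    exact hmain _ G rfl e V γ h1 h2
  intro n
  induction n using Nat.strong_induction_on with
  | _ n ih =>
  -- the local blocks
  have claim : ∀ (H : Type) [Group H] [Finite H] (e : H → FF M) (V : Subgroup H) (γ : H → FF M),
      Ld ℓ e V γ → (∃ W : Subgroup V, K ℓ V (Ei V γ) W) → ∀ v ∈ V, Nat.card (Cu v) < n →
      ∀ b : H → FF M, Lc e V γ v b → ln (fun t : Cu v => b t) = lnum (Tg V γ ⊓ Cu v) γ := by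
    intro H _ _ e V γ hL hc v hv hlt b hb
    obtain ⟨W, hW⟩ := hc
    obtain ⟨m1, -⟩ := lsb ℓ M hM H e V γ hL v hv b hb
    obtain ⟨π, -, hq⟩ := qrx ℓ (FF M) H e V γ hL (Cu v) (cen_le_Cu hv)
    have h3 := hA.iso V _ (Ei V γ) _ W π hq hW
    rw [ih _ hlt (Cu v) rfl _ _ _ m1 (Or.inr ⟨_, h3⟩), frt ℓ M hM (Cu v) _ _ _ m1]
    exact (ltx ℓ (FF M) H e V γ hL (Cu v) (cen_le_Cu hv)).1
  intro G _ _ hn e V γ hL hc
  have hVC : V ≤ Subgroup.centralizer (V : Set G) := by
    intro v hv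
    rw [Subgroup.mem_centralizer_iff]
    intro w hw
    exact hL.ab w hw v hv
  rcases hc with hV | ⟨W₀, hW₀⟩
  · -- `V = ⊥`
    have h1 := (lbr ℓ (FF M) hF G e hL.blk.1 V (Subgroup.normalizer (V : Set G)) hL.tp.pg
      Subgroup.le_normalizer le_rfl).1
    have hN : Subgroup.normalizer (V : Set G) = ⊤ := by
      have hnV : V.Normal := by
        rw [hV]
        exact Subgroup.normal_bot
      exact Subgroup.normalizer_eq_top_iff.2 hnV
    have h2 : ln e = lnum (Subgroup.normalizer (V : Set G)) e := by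
      rw [hN]
      exact (H35.lnum_top e).symm
    rw [h2, h1]
    rfl
  -- the subgroup `W`
  obtain ⟨W, hWV, hWs⟩ : ∃ W : Subgroup G, W ≤ V ∧ W.subgroupOf V = W₀ :=
    ⟨W₀.map V.subtype, Subgroup.map_subtype_le _,
      Subgroup.comap_map_eq_self_of_injective V.subtype_injective W₀⟩
  have hne : W ≠ ⊥ := by
    rintro rfl
    apply hA.nt V (Ei V γ) W₀ hW₀
    rw [← hWs]
    exact Subgroup.bot_subgroupOf V
  subst hWs
  have hst := hA.st V (Ei V γ) _ hW₀
  have hTN : Tg V γ ≤ Subgroup.normalizer (W : Set G) := twn (FF M) G V γ W hWV hst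
  by_cases hWn : W.Normal
  · -- `W` normal
    have hlt : Nat.card (G ⧸ W) < n := by
      rw [← hn, Subgroup.card_eq_card_quotient_mul_card_subgroup W]
      have h1 : 1 < Nat.card W := by
        rw [Subgroup.one_lt_card_iff_ne_bot]
        exact hne
      have h2 : 0 < Nat.card (G ⧸ W) := Nat.card_pos
      nlinarith
    have hker : (QuotientGroup.mk' W).ker = W := QuotientGroup.ker_mk' W
    apply qln ℓ (FF M) hF G (G ⧸ W) (QuotientGroup.mk' W) (QuotientGroup.mk'_surjective W) V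
      hL.tp.pg (by rw [hker]; exact hWV) e hL.blk.1
    intro f hf hfe
    obtain ⟨γ', hL', π, hπ, hq⟩ := qrq ℓ M hM G e V γ hL W hWV hWn (G ⧸ W) (QuotientGroup.mk' W)
      (QuotientGroup.mk'_surjective W) hker f hf hfe
    refine ih _ hlt (G ⧸ W) rfl f _ γ' hL' ?_
    by_cases hb : V.map (QuotientGroup.mk' W) = ⊥
    · exact Or.inl hb
    · refine Or.inr (hA.quo V (V.map (QuotientGroup.mk' W)) (Ei V γ) _ _ π hL.tp.pg ?_ ?_ hq hW₀
        hπ ?_)
      · obtain ⟨l1, -⟩ := lke ℓ (FF M) G e V γ hL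
        have hix : ¬ ℓ ∣ ix V γ :=
          inx ℓ M hM G e hL.blk V hL.tp hL.ab γ hL.gam.supp hL.gam.blk hL.und
        have hiz : iz V V γ = ix V γ := by
          unfold iz ix
          rw [inf_eq_left.2 (T3.H66.cent_le_Tg hL)]
        rw [← l1, hiz]
        exact hix
      · exact fun a c => Subtype.ext (hL.ab _ a.2 _ c.2)
      · exact Subgroup.ne_bot_iff_exists_ne_one.1 hb
  · -- `W` not normal
    have hltN : Nat.card (Subgroup.normalizer (W : Set G)) < n := by
      rw [← hn]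
      refine lt_of_le_of_ne (Subgroup.card_le_card_group _) (fun h => hWn ?_)
      exact Subgroup.normalizer_eq_top_iff.1 ((Subgroup.card_eq_iff_eq_top _).1 h)
    obtain ⟨c, hLc⟩ := exc ℓ M hM G e V γ hL W hWV
    have hirr := sto ℓ M hM G e V γ hL W hWV hW₀ c hLc
    obtain ⟨b, hZ, hSt⟩ := sta ℓ M hM G e V γ hL
    have hlc : ∀ v ∈ V, Lc e V γ v (b v) := fun v hv =>
      ⟨(hZ.lb v hv).1.bx, (hZ.lb v hv).1.und, (hZ.lb v hv).2⟩
    obtain ⟨b', hZ', hSt'⟩ := sta ℓ M hM _ c _ _ hLc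
    have hlc' : ∀ v ∈ V.subgroupOf (Subgroup.normalizer (W : Set G)), Lc c _ _ v (b' v) :=
      fun v hv => ⟨(hZ'.lb v hv).1.bx, (hZ'.lb v hv).1.und, (hZ'.lb v hv).2⟩
    have k1 := ksm ℓ M hM G e V γ b hZ hSt
    have k2 := ksm ℓ M hM _ c _ _ b' hZ' hSt'
    obtain ⟨z1, z2⟩ := izx ℓ (FF M) G e V γ hL _ hTN
    have hCN : Subgroup.centralizer (V : Set G) ≤ Subgroup.normalizer (W : Set G) :=
      (T3.H66.cent_le_Tg hL).trans hTN
    obtain ⟨π, hπ, hq⟩ := qrx ℓ (FF M) G e V γ hL _ hCN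
    obtain ⟨-, x2⟩ := ltx ℓ (FF M) G e V γ hL _ hCN
    have hcl : ∃ W' : Subgroup (V.subgroupOf (Subgroup.normalizer (W : Set G))),
        K ℓ _ (Ei (V.subgroupOf (Subgroup.normalizer (W : Set G)))
          (fun t : Subgroup.normalizer (W : Set G) => γ t)) W' :=
      ⟨_, hA.iso V _ (Ei V γ) _ _ π hq hW₀⟩
    have := Fintype.ofFinite V
    have h3 : ∑ v : V, cz V V γ (v : G) * ln (fun t : Cu (v : G) => b v t) =
        ∑ v : V, cz V V γ (v : G) *
          ln (fun t : Cu ((π v : V.subgroupOf (Subgroup.normalizer (W : Set G))) :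
            Subgroup.normalizer (W : Set G)) => b' ((π v : V.subgroupOf _) :
            Subgroup.normalizer (W : Set G)) t) := by
      rw [← finsum_eq_sum_of_fintype, ← finsum_eq_sum_of_fintype, ← k1, hirr, ← z1, k2]
      rw [← finsum_comp_equiv π.toEquiv]
      apply finsum_congr
      intro v
      have h4 : (π.toEquiv v : V.subgroupOf (Subgroup.normalizer (W : Set G))) = π v := rfl
      rw [h4, z2, hπ]
    have hK2 : ∀ v : V, ln (fun t : Cu ((π v : V.subgroupOf (Subgroup.normalizer (W : Set G))) :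
            Subgroup.normalizer (W : Set G)) => b' ((π v : V.subgroupOf _) :
            Subgroup.normalizer (W : Set G)) t) = lnum (Tg V γ ⊓ Cu (v : G)) γ := by
      intro v
      rw [claim _ c _ _ hLc hcl _ (π v).2
        (lt_of_le_of_lt (Subgroup.card_le_card_group _) hltN) _ (hlc' _ (π v).2), x2, hπ,
        inf_eq_left.2 hTN]
    rw [frt ℓ M hM G e V γ hL]
    refine PFD.H11.cmp (fun v : V => (v : G) ∈ Subgroup.center G) _ _ _ (iz V V γ) (ln e)
      (lnum (Tg V γ) γ) ?_ 1 (Subgroup.one_mem _) ?_ ?_ ?_ ?_ h3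
    · unfold iz
      exact Nat.pos_of_ne_zero (Subgroup.FiniteIndex.index_ne_zero)
    · intro v hv
      change (Subgroup.centralizer (V : Set G) ⊓ Tg V γ).relIndex (Tg V γ ⊓ Cu (v : G)) = _
      rw [Cu_top hv, inf_top_eq]
      rfl
    · intro v hv
      exact lnt ℓ (FF M) hF G e V γ hL v v.2 hv (b v) (hlc v v.2)
    · intro v hv
      rw [hK2, Cu_top hv, inf_top_eq]
    · intro v hv
      rw [hK2]
      refine claim G e V γ hL ⟨_, hW₀⟩ v v.2 ?_ _ (hlc v v.2)
      rw [← hn]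
      exact Cu_lt hv

end Pool.Agent.PSS.H11
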