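import Pool.Agent.PFD.AsmD5b
import Pool.Agent.AT8.Asm
import Pool.Agent.Helper11_PSS.LEN
import Pool.Agent.Helper33_PSS.QRX
import Pool.Agent.Helper77_PSS.QRQ
import Pool.Agent.Helper49_PSS.TWN
import Pool.Agent.Helper15_PSS.EXC
import Pool.Agent.Helper63_PSS.FRT
import Pool.Agent.Helper24_PSS.LTX
import Pool.Agent.Helper60_PSS.IZX
import Pool.Agent.Helper86_PSS.QLN
import Pool.Agent.Helper75_K9.LBR

/-!
Squad PSS: LEN without hypotheses.
-/

noncomputable section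

namespace Pool.Agent.PSS.H11

open Pool.Agent.PP Pool.Agent.PP.K9

theorem len_ : LenStmt :=
  len H33.qrx (H77.qrq T3.qt1_ T8.qt3_) H49.twn (H15.exc PFD.H94b.bnr) H63.frt H24.ltx H60.izx
    H86.qln PFD.ksm_ PFD.H63.lnt PFD.H6.lke T3.lsb_ TW.sta_ K9.H34.inx K9.H75.lbr

end Pool.Agent.PSS.H11
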